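import Mathlib

/-! Triangular systems in normed spaces. -/

namespace Pool.Agent.P.MP_d900b7_an.E

open Finset

theorem seq_ex {α : Type*} (P : ℕ → α → Prop) (r : ℕ → α → α → Prop)
    (h : ∀ n (s : Finset α), s.card ≤ n → ∃ y, P n y ∧ ∀ x ∈ s, r n x y) :
    ∃ z : ℕ → α, ∀ n, P n (z n) ∧ ∀ m < n, r n (z m) (z n) := by
  classical
  choose g hg using h
  let S : (n : ℕ) → {s : Finset α // s.card ≤ n} := fun n =>
    Nat.rec ⟨∅, le_rfl⟩ (fun n s => ⟨insert (g n s.1 s.2) s.1,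
      (card_insert_le _ _).trans (Nat.succ_le_succ s.2)⟩) n
  have hS : ∀ n, (S (n + 1)).1 = insert (g n (S n).1 (S n).2) (S n).1 := fun _ => rfl
  refine ⟨fun n => g n (S n).1 (S n).2, fun n => ⟨(hg n _ _).1, fun m hm => (hg n _ _).2 _ ?_⟩⟩
  induction n with
  | zero => omega
  | succ n ih =>
    rw [hS, mem_insert]
    rcases Nat.lt_succ_iff_lt_or_eq.1 hm with h | rfl
    · exact Or.inr (ih h)
    · exact Or.inl rfl

variable {X : Type*} [NormedAddCommGroup X] [NormedSpace ℝ X]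

theorem tri {z : ℕ → X} {φ : ℕ → X →L[ℝ] ℝ} {N : ℕ} (h1 : ∀ i < N, ‖z i‖ = 1)
    (h2 : ∀ i < N, ‖φ i‖ ≤ 1) (h3 : ∀ i < N, φ i (z i) = 1)
    (h4 : ∀ j < N, ∀ i < j, φ i (z j) = 0) (a : ℕ → ℝ) (i : ℕ) (hi : i < N) :
    |a i| ≤ 2 ^ i * ‖∑ j ∈ range N, a j • z j‖ := by
  set x := ∑ j ∈ range N, a j • z j with hx
  induction i using Nat.strong_induction_on with
  | _ i ih =>
    have hb : ∀ y, |φ i y| ≤ ‖y‖ := fun y =>
      ((φ i).le_opNorm y).trans (mul_le_of_le_one_left (norm_nonneg _) (h2 i hi))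
    have e : φ i x = ∑ j ∈ range i, a j * φ i (z j) + a i := by
      rw [hx, map_sum, ← sum_subset (range_subset_range.2 (Nat.succ_le_of_lt hi))
        (fun j hj hj' => by
          rw [mem_range] at hj hj'
          rw [map_smul, h4 j hj i (by omega), smul_zero]), sum_range_succ, map_smul, h3 i hi]
      simp only [map_smul, smul_eq_mul, mul_one]
    have e2 : |∑ j ∈ range i, a j * φ i (z j)| ≤ ∑ j ∈ range i, 2 ^ j * ‖x‖ := by
      refine (abs_sum_le_sum_abs _ _).trans (sum_le_sum fun j hj => ?_)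
      rw [mem_range] at hj
      rw [abs_mul]
      have := hb (z j)
      rw [h1 j (hj.trans hi)] at this
      exact (mul_le_of_le_one_right (abs_nonneg _) this).trans (ih j hj (hj.trans hi))
    have e3 : ∑ j ∈ range i, (2 : ℝ) ^ j * ‖x‖ = (2 ^ i - 1) * ‖x‖ := by
      rw [← sum_mul, geom_sum_eq (by norm_num)]
      norm_num
    have e4 : a i = φ i x - ∑ j ∈ range i, a j * φ i (z j) := by rw [e]; ring
    rw [e4]
    refine (abs_sub _ _).trans ?_
    have := hb x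
    linarith

theorem ex_dual {z : X} (hz : ‖z‖ = 1) : ∃ φ : X →L[ℝ] ℝ, ‖φ‖ ≤ 1 ∧ φ z = 1 := by
  obtain ⟨g, h1, h2⟩ := exists_dual_vector'' ℝ z
  exact ⟨g, h1, by rw [h2, hz]; rfl⟩

theorem inf_ker {P : Type*} [AddCommGroup P] [Module ℝ P] [FiniteDimensional ℝ P]
    (f : X →ₗ[ℝ] P) {Z : Submodule ℝ X} (hZ : ¬ FiniteDimensional ℝ Z) :
    ¬ FiniteDimensional ℝ (Z ⊓ LinearMap.ker f : Submodule ℝ X) := fun h =>
  hZ (Module.Finite.iff_fg.2 (Submodule.fg_of_fg_map_of_fg_inf_ker f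
    (IsNoetherian.noetherian _) (Module.Finite.iff_fg.1 h)))

/-- Every space of dimension `n` is uniformly isomorphic to the coordinate space. -/
theorem fin_iso [FiniteDimensional ℝ X] {n : ℕ} (hn : Module.finrank ℝ X = n) :
    ∃ T : (Fin n → ℝ) ≃L[ℝ] X, ‖(T : (Fin n → ℝ) →L[ℝ] X)‖ ≤ n ∧
      ‖(T.symm : X →L[ℝ] (Fin n → ℝ))‖ ≤ 2 ^ n := by
  classical
  obtain ⟨z, hz⟩ := seq_ex (α := X × (X →L[ℝ] ℝ))
    (fun i y => i < n → ‖y.1‖ = 1 ∧ ‖y.2‖ ≤ 1 ∧ y.2 y.1 = 1) (fun i x y => i < n → x.2 y.1 = 0)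
    (fun i s hs => by
      by_cases hi : i < n
      · let Φ : X →ₗ[ℝ] (s → ℝ) := LinearMap.pi fun x => (x.1.2 : X →ₗ[ℝ] ℝ)
        have hk : LinearMap.ker Φ ≠ ⊥ := by
          refine LinearMap.ker_ne_bot_of_finrank_lt ?_
          rw [Module.finrank_pi, Fintype.card_coe]
          omega
        obtain ⟨v, hv, hv0⟩ := Submodule.exists_mem_ne_zero_of_ne_bot hk
        have h1 : ‖‖v‖⁻¹ • v‖ = 1 := norm_smul_inv_norm hv0
        obtain ⟨φ, h2, h3⟩ := ex_dual h1
        refine ⟨(‖v‖⁻¹ • v, φ), fun _ => ⟨h1, h2, h3⟩, fun x hx _ => ?_⟩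
        have : x.2 v = 0 := congrFun (LinearMap.mem_ker.1 hv) ⟨x, hx⟩
        simp only [map_smul, this, smul_zero]
      · exact ⟨(0, 0), fun h => absurd h hi, fun _ _ h => absurd h hi⟩)
  let L : (Fin n → ℝ) →ₗ[ℝ] X := Fintype.linearCombination ℝ fun i : Fin n => (z i).1
  have hL : ∀ a, L a = ∑ i : Fin n, a i • (z i).1 := fun a => Fintype.linearCombination_apply _ _ _
  have lo : ∀ a, ‖a‖ ≤ 2 ^ n * ‖L a‖ := fun a => by
    refine (pi_norm_le_iff_of_nonneg (by positivity)).2 fun i => ?_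
    have := tri (z := fun i => (z i).1) (φ := fun i => (z i).2) (N := n)
      (fun i hi => ((hz i).1 hi).1) (fun i hi => ((hz i).1 hi).2.1)
      (fun i hi => ((hz i).1 hi).2.2) (fun j hj i hi => (hz j).2 i hi hj)
      (fun j => if h : j < n then a ⟨j, h⟩ else 0) i i.2
    rw [dif_pos i.2, ← Fin.sum_univ_eq_sum_range
      (fun j => (if h : j < n then a ⟨j, h⟩ else 0) • (z j).1)] at this
    simp only [Fin.is_lt, dif_pos, Fin.eta] at this
    rw [hL]
    refine this.trans (mul_le_mul_of_nonneg_right ?_ (norm_nonneg _))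
    exact pow_le_pow_right₀ (by norm_num) i.2.le
  have hi : ∀ a, ‖L a‖ ≤ n * ‖a‖ := fun a => by
    rw [hL]
    refine (norm_sum_le _ _).trans ?_
    refine (sum_le_card_nsmul _ _ ‖a‖ fun i _ => ?_).trans (by simp)
    rw [norm_smul, ((hz i).1 i.2).1, mul_one]
    exact norm_le_pi_norm a i
  have inj : Function.Injective L := by
    rw [injective_iff_map_eq_zero]
    intro a ha
    have := lo a
    rw [ha, norm_zero, mul_zero] at this
    exact norm_le_zero_iff.1 this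
  let E := (L.linearEquivOfInjective inj (by simp [hn])).toContinuousLinearEquiv
  have hE : ∀ a, E a = L a := fun _ => rfl
  refine ⟨E, ContinuousLinearMap.opNorm_le_bound _ (by positivity) hi,
    ContinuousLinearMap.opNorm_le_bound _ (by positivity) fun x => ?_⟩
  have := lo (E.symm x)
  rwa [← hE, E.apply_symm_apply] at this

end Pool.Agent.P.MP_d900b7_an.E
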