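import Pool.Agent.P.MP_d900b7_an.E.Scat
import Pool.Agent.P.MP_d900b7_an.E.Tri

/-! Infinite dimensional subspaces of `C(K)`, `K` scattered, contain almost biorthogonal systems
with an upper `c₀` estimate. -/

namespace Pool.Agent.P.MP_d900b7_an.E

open Finset

variable {X : Type*} [NormedAddCommGroup X] [NormedSpace ℝ X]
  {K : Type*} [TopologicalSpace K] [CompactSpace K]

def Czero (X : Type*) [NormedAddCommGroup X] [NormedSpace ℝ X] : Prop :=
  ∃ C : ℝ, 0 ≤ C ∧ ∀ η : ℝ, 0 < η → ∃ (x : ℕ → X) (φ : ℕ → X →L[ℝ] ℝ), (∀ n, ‖φ n‖ ≤ C) ∧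
    (∀ n, φ n (x n) = 1) ∧ (∀ n (S : Finset ℕ), n ∉ S → ∑ i ∈ S, |φ n (x i)| ≤ η) ∧
    ∀ (S : Finset ℕ) (a : ℕ → ℝ), (∀ i, |a i| ≤ 1) → ‖∑ i ∈ S, a i • x i‖ ≤ C

def Thin (J : X →L[ℝ] C(K, ℝ)) (A : Set K) : Prop :=
  ∀ Z : Submodule ℝ X, ¬ FiniteDimensional ℝ Z → ∀ ε : ℝ, 0 < ε →
    ∃ z ∈ Z, ‖z‖ = 1 ∧ ∀ k ∈ A, |J z k| ≤ ε

theorem sum_half (S : Finset ℕ) : ∑ i ∈ S, ((1 : ℝ) / 2) ^ i ≤ 2 :=
  (summable_geometric_two.sum_le_tsum S fun _ _ => by positivity).trans tsum_geometric_two.le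

omit [CompactSpace K] in
theorem thin_empty (J : X →L[ℝ] C(K, ℝ)) : Thin J ∅ := fun Z hZ ε _ => by
  have : Z ≠ ⊥ := by
    rintro rfl
    exact hZ inferInstance
  obtain ⟨v, hv, hv0⟩ := Submodule.exists_mem_ne_zero_of_ne_bot this
  exact ⟨‖v‖⁻¹ • v, Z.smul_mem _ hv, norm_smul_inv_norm hv0, by simp⟩

omit [CompactSpace K] in
theorem ev_sum (J : X →L[ℝ] C(K, ℝ)) {ι : Type*} (S : Finset ι) (a : ι → ℝ) (z : ι → X) (k : K) :
    J (∑ i ∈ S, a i • z i) k = ∑ i ∈ S, a i * J (z i) k := by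
  rw [map_sum, ContinuousMap.sum_apply]
  simp only [map_smul, ContinuousMap.smul_apply, smul_eq_mul]

omit [CompactSpace K] in
theorem Thin.union {J : X →L[ℝ] C(K, ℝ)} {A B : Set K} (hA : Thin J A) (hB : Thin J B) :
    Thin J (A ∪ B) := by
  classical
  intro Z hZ ε hε
  obtain ⟨z, hz⟩ := seq_ex (α := X × (X →L[ℝ] ℝ))
    (fun i y => y.1 ∈ Z ∧ ‖y.1‖ = 1 ∧ ‖y.2‖ ≤ 1 ∧ y.2 y.1 = 1 ∧
      ∀ k ∈ A, |J y.1 k| ≤ ε / 2 * (1 / 4) ^ i) (fun _ x y => x.2 y.1 = 0)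
    (fun i s _ => by
      let Φ : X →ₗ[ℝ] (s → ℝ) := LinearMap.pi fun x => (x.1.2 : X →ₗ[ℝ] ℝ)
      obtain ⟨v, hv, h1, h2⟩ := hA _ (inf_ker Φ hZ) (ε / 2 * (1 / 4) ^ i) (by positivity)
      obtain ⟨φ, h3, h4⟩ := ex_dual h1
      exact ⟨(v, φ), ⟨hv.1, h1, h3, h4, h2⟩,
        fun x hx => congrFun (LinearMap.mem_ker.1 hv.2) ⟨x, hx⟩⟩)
  have key : ∀ N (a : ℕ → ℝ) i, i < N →
      |a i| ≤ 2 ^ i * ‖∑ j ∈ range N, a j • (z j).1‖ := fun N a i hi =>
    tri (z := fun i => (z i).1) (φ := fun i => (z i).2) (fun i _ => (hz i).1.2.1)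
      (fun i _ => (hz i).1.2.2.1) (fun i _ => (hz i).1.2.2.2.1) (fun j _ i hi => (hz j).2 i hi)
      a i hi
  have li : LinearIndependent ℝ fun i => (z i).1 := by
    rw [linearIndependent_iff'']
    intro s g hg h0 i
    obtain ⟨N, hN⟩ := (insert i s).exists_nat_subset_range
    have := key N g i (mem_range.1 (hN (mem_insert_self _ _)))
    rw [← sum_subset ((subset_insert i s).trans hN)
      (fun j _ hj => by rw [hg j hj, zero_smul]), h0, norm_zero, mul_zero] at this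
    exact abs_nonpos_iff.1 this
  obtain ⟨y, hy, h1, h2⟩ := hB (Submodule.span ℝ (Set.range fun i => (z i).1))
    (fun h => Module.Finite.not_linearIndependent_of_infinite _ (linearIndependent_span li)) ε hε
  refine ⟨y, Submodule.span_le.2 (Set.range_subset_iff.2 fun i => (hz i).1.1) hy, h1, ?_⟩
  rintro k (hk | hk)
  · obtain ⟨c, hc⟩ := Finsupp.mem_span_range_iff_exists_finsupp.1 hy
    obtain ⟨N, hN⟩ := c.support.exists_nat_subset_range
    rw [Finsupp.sum_of_support_subset c hN (fun i a => a • (z i).1)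
      (fun _ _ => zero_smul _ _)] at hc
    have h3 := key N c
    rw [hc, h1] at h3
    rw [← hc, ev_sum]
    refine (abs_sum_le_sum_abs _ _).trans ?_
    refine (sum_le_sum (g := fun i => ε / 2 * (1 / 2) ^ i) fun i hi => ?_).trans ?_
    · rw [abs_mul]
      refine (mul_le_mul (h3 i (mem_range.1 hi)) ((hz i).1.2.2.2.2 k hk) (abs_nonneg _)
        (by positivity)).trans (le_of_eq ?_)
      rw [show (1 / 2 : ℝ) = 2 * (1 / 4) by norm_num, mul_pow]
      ring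
    · rw [← mul_sum]
      have := sum_half (range N)
      nlinarith
  · exact h2 k hk

theorem thin_step (hX : ¬ Czero X) (J : X →L[ℝ] C(K, ℝ)) {A : Set K} {p : K} (hA : IsCompact A)
    (h : ∀ B, IsCompact B → B ⊆ A → p ∉ B → Thin J B) : Thin J A := by
  classical
  intro Z hZ e he
  by_contra hc
  push Not at hc
  refine hX ⟨(‖J‖ + 1) / e, by positivity, fun η hη => ?_⟩
  obtain ⟨θ, hθ, θ1, θ2, θ3⟩ : ∃ θ : ℝ, 0 < θ ∧ θ ≤ e ∧ 2 * θ ≤ 1 ∧ 2 * θ ≤ η * e :=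
    ⟨min e (min (1 / 2) (η * e / 2)), by positivity, min_le_left _ _,
      by linarith [min_le_right e (min (1 / 2) (η * e / 2)), min_le_left (1 / 2) (η * e / 2)],
      by linarith [min_le_right e (min (1 / 2) (η * e / 2)), min_le_right (1 / 2) (η * e / 2)]⟩
  let ev : K → X →L[ℝ] ℝ := fun k => (ContinuousMap.evalCLM ℝ k).comp J
  have hev : ∀ k x, ev k x = J x k := fun _ _ => rfl
  have hJ : ∀ k x, |J x k| ≤ ‖J‖ * ‖x‖ := fun k x =>
    ((J x).norm_coe_le_norm k).trans (J.le_opNorm x)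
  obtain ⟨z, hz⟩ := seq_ex (α := X) (fun _ y => y ∈ Z ∧ J y p = 0 ∧ ‖y‖ = 1)
    (fun n x y => J x p = 0 → ∀ k ∈ A, θ * (1 / 2) ^ n ≤ |J x k| → |J y k| ≤ θ * (1 / 2) ^ n)
    (fun n s _ => by
      have hB : IsCompact (A ∩ ⋃ x ∈ s.filter (fun x => J x p = 0),
          {k | θ * (1 / 2) ^ n ≤ |J x k|}) :=
        hA.inter_right (isClosed_biUnion_finset fun x _ =>
          isClosed_le continuous_const (J x).continuous.abs)
      obtain ⟨y, hy, h1, h2⟩ := h _ hB Set.inter_subset_left (by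
        rintro ⟨-, hp⟩
        simp only [Set.mem_iUnion, mem_filter, Set.mem_ofPred_eq] at hp
        obtain ⟨x, ⟨-, h1⟩, h2⟩ := hp
        rw [h1, abs_zero] at h2
        exact absurd h2 (not_le.2 (by positivity))) _ (inf_ker (ev p : X →ₗ[ℝ] ℝ) hZ)
        (θ * (1 / 2) ^ n) (by positivity)
      refine ⟨y, ⟨hy.1, LinearMap.mem_ker.1 hy.2, h1⟩, fun x hx hp k hk hl => h2 k ⟨hk, ?_⟩⟩
      exact Set.mem_biUnion (mem_filter.2 ⟨hx, hp⟩) hl)
  have uniq : ∀ k ∈ A, ∀ n i, i ≠ n → θ * (1 / 2) ^ n < |J (z n) k| →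
      |J (z i) k| ≤ θ * (1 / 2) ^ i := by
    intro k hk n i hi hn
    have mono : ∀ a b : ℕ, a ≤ b → θ * (1 / 2 : ℝ) ^ b ≤ θ * (1 / 2) ^ a := fun a b hab =>
      mul_le_mul_of_nonneg_left (pow_le_pow_of_le_one (by norm_num) (by norm_num) hab) hθ.le
    rcases lt_or_gt_of_ne hi with h1 | h1
    · by_contra h2
      have := (hz n).2 i h1 (hz i).1.2.1 k hk ((mono i n h1.le).trans (not_le.1 h2).le)
      exact absurd hn (not_lt.2 this)
    · exact (hz i).2 n h1 (hz n).1.2.1 k hk ((mono n i h1.le).trans hn.le)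
  have small : ∀ k ∈ A, ∀ n, ∀ S : Finset ℕ, n ∉ S → θ * (1 / 2) ^ n < |J (z n) k| →
      ∑ i ∈ S, |J (z i) k| ≤ 2 * θ := by
    intro k hk n S hS hn
    refine (sum_le_sum fun i hi => uniq k hk n i (fun h => hS (h ▸ hi)) hn).trans ?_
    rw [← mul_sum]
    have := sum_half S
    nlinarith
  have tot : ∀ k ∈ A, ∀ S : Finset ℕ, ∑ i ∈ S, |J (z i) k| ≤ ‖J‖ + 1 := by
    intro k hk S
    by_cases hS : ∃ n ∈ S, θ * (1 / 2) ^ n < |J (z n) k|
    · obtain ⟨n, h1, h2⟩ := hS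
      rw [← add_sum_erase _ _ h1]
      have := small k hk n _ (notMem_erase n S) h2
      have h3 := hJ k (z n)
      rw [(hz n).1.2.2] at h3
      linarith
    · push Not at hS
      refine (sum_le_sum hS).trans ?_
      rw [← mul_sum]
      have := sum_half S
      have := norm_nonneg J
      nlinarith
  choose κ hκ hκ' using fun n => hc (z n) (hz n).1.1 (hz n).1.2.2
  have hinv : ∀ n, |(J (z n) (κ n))⁻¹| ≤ e⁻¹ := fun n => by
    rw [abs_inv]
    exact inv_anti₀ he (hκ' n).le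
  refine ⟨z, fun n => (J (z n) (κ n))⁻¹ • ev (κ n), fun n => ?_, fun n => ?_, fun n S hS => ?_,
    fun S a ha => ?_⟩
  · refine ContinuousLinearMap.opNorm_le_bound _ (by positivity) fun x => ?_
    rw [smul_apply, hev, smul_eq_mul, Real.norm_eq_abs, abs_mul]
    refine (mul_le_mul (hinv n) (hJ _ x) (abs_nonneg _) (by positivity)).trans ?_
    rw [div_eq_inv_mul, mul_assoc]
    gcongr
    linarith
  · rw [smul_apply, hev, smul_eq_mul]
    exact inv_mul_cancel₀ (abs_pos.1 (he.trans (hκ' n)))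
  · simp only [smul_apply, hev, smul_eq_mul, abs_mul]
    rw [← mul_sum]
    have h1 := small _ (hκ n) n S hS (lt_of_le_of_lt (le_trans
      (mul_le_of_le_one_right hθ.le (pow_le_one₀ (by norm_num) (by norm_num))) θ1) (hκ' n))
    refine (mul_le_mul (hinv n) (h1.trans θ3) (sum_nonneg fun _ _ => abs_nonneg _)
      (by positivity)).trans (le_of_eq ?_)
    field_simp
  · set y := ∑ i ∈ S, a i • z i with hy
    by_cases h0 : y = 0
    · rw [h0, norm_zero]; positivity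
    obtain ⟨k, hk, h1⟩ := hc (‖y‖⁻¹ • y)
      (Z.smul_mem _ (Z.sum_mem fun i _ => Z.smul_mem _ (hz i).1.1)) (norm_smul_inv_norm h0)
    have hy0 : 0 < ‖y‖ := norm_pos_iff.2 h0
    rw [map_smul, ContinuousMap.smul_apply, smul_eq_mul, abs_mul, abs_of_pos (inv_pos.2 hy0),
      lt_inv_mul_iff₀ hy0] at h1
    rw [le_div_iff₀ he]
    refine h1.le.trans (le_trans ?_ (tot k hk S))
    rw [hy, ev_sum]
    refine (abs_sum_le_sum_abs _ _).trans (sum_le_sum fun i _ => ?_)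
    rw [abs_mul]
    exact mul_le_of_le_one_left (abs_nonneg _) (ha i)

theorem czero [T2Space K]
    (hK : ∀ L : Set K, IsClosed L → L.Nonempty → ∃ x ∈ L, ∃ U : Set K, IsOpen U ∧ U ∩ L = {x})
    (J : X →L[ℝ] C(K, ℝ)) {c : ℝ} (hc : 0 < c) (hJ : ∀ x, ‖x‖ ≤ c * ‖J x‖)
    (hX : ¬ FiniteDimensional ℝ X) : Czero X := by
  by_contra h
  have := scat_ind hK (Thin J) (thin_empty J)
    (fun A B hAB hB Z hZ ε hε => by
      obtain ⟨z, h1, h2, h3⟩ := hB Z hZ ε hε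
      exact ⟨z, h1, h2, fun k hk => h3 k (hAB hk)⟩)
    (fun A B => Thin.union) (fun A p hA => thin_step h J hA)
  obtain ⟨z, -, h1, h2⟩ := this ⊤ (fun h => hX (Module.Finite.equiv Submodule.topEquiv))
    (1 / (2 * c)) (by positivity)
  have h3 : ‖J z‖ ≤ 1 / (2 * c) :=
    (ContinuousMap.norm_le _ (by positivity)).2 fun k => h2 k trivial
  have h4 := (hJ z).trans (mul_le_mul_of_nonneg_left h3 hc.le)
  rw [h1, show c * (1 / (2 * c)) = 1 / 2 by field_simp] at h4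
  norm_num at h4

end Pool.Agent.P.MP_d900b7_an.E
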