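import Pool.Agent.P.MP_d900b7_an.Defs

namespace Pool.Agent.P.MP_d900b7_an

open scoped ENNReal

universe u v

/-- Scattered: every nonempty closed set has a point isolated in it. -/
def IsScattered (K : Type v) [TopologicalSpace K] : Prop :=
  ∀ L : Set K, IsClosed L → L.Nonempty → ∃ x ∈ L, ∃ U : Set K, IsOpen U ∧ U ∩ L = {x}

/-- Elastic in the sense of Johnson and Odell: for some finite `c`, every Banach space isomorphic
to a subspace of `X` is within Banach-Mazur distance `c` of a subspace of `X`. -/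
def IsElastic (X : Type u) [NormedAddCommGroup X] [NormedSpace ℝ X] : Prop :=
  ∃ c : ℝ≥0∞, c < ⊤ ∧ ∀ (Y : Type u) [NormedAddCommGroup Y] [NormedSpace ℝ Y] [CompleteSpace Y],
    (∃ S : Submodule ℝ X, Nonempty (Y ≃L[ℝ] S)) →
      ∃ S : Submodule ℝ X, Nonempty (Y ≃L[ℝ] S) ∧ bmDist Y S ≤ c

end Pool.Agent.P.MP_d900b7_an
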