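import Pool.Agent.P.MP_d900b7_an.E.Czero

/-! Renormings that do not embed in `C(K)` with small distortion. -/

namespace Pool.Agent.P.MP_d900b7_an.E

open Finset
open scoped NNRat BoundedContinuousFunction

universe u

theorem sys {X : Type*} [NormedAddCommGroup X] [NormedSpace ℝ X] (h : Czero X) :
    ∃ C : ℝ, 0 ≤ C ∧ ∀ η : ℝ, 0 < η → ∃ (x : At → X) (φ : At → X →L[ℝ] ℝ), (∀ r, ‖φ r‖ ≤ C) ∧
      (∀ r (D : Finset At), |φ r (∑ i ∈ D, x i) - if r ∈ D then 1 else 0| ≤ η) ∧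
      ∀ (S : Finset At) (a : At → ℝ), (∀ i, |a i| ≤ 1) → ‖∑ i ∈ S, a i • x i‖ ≤ C := by
  obtain ⟨C, hC, h⟩ := h
  refine ⟨C, hC, fun η hη => ?_⟩
  obtain ⟨x, φ, h1, h2, h3, h4⟩ := h η hη
  obtain ⟨e⟩ : Nonempty (At ≃ ℕ) := nonempty_equiv_of_countable
  have key : ∀ r (D : Finset At), r ∉ D → |φ (e r) (∑ i ∈ D, x (e i))| ≤ η := fun r D hr => by
    have := h3 (e r) (D.map e.toEmbedding) (by simpa using hr)
    rw [sum_map] at this
    rw [map_sum]
    exact (abs_sum_le_sum_abs _ _).trans this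
  refine ⟨fun r => x (e r), fun r => φ (e r), fun r => h1 _, fun r D => ?_, fun S a ha => ?_⟩
  · split_ifs with hr
    · rw [← add_sum_erase _ _ hr, map_add, h2, add_sub_cancel_left]
      exact key r _ (notMem_erase r D)
    · rw [sub_zero]
      exact key r D hr
  · have := h4 (S.map e.toEmbedding) (fun i => a (e.symm i)) fun i => ha _
    rw [sum_map] at this
    simpa using this

theorem core {X : Type*} [NormedAddCommGroup X] [NormedSpace ℝ X]
    {K : Type*} [TopologicalSpace K] [CompactSpace K] [T2Space K]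
    (hK : ∀ L : Set K, IsClosed L → L.Nonempty → ∃ x ∈ L, ∃ U : Set K, IsOpen U ∧ U ∩ L = {x})
    {C lam : ℝ} (hC : 0 ≤ C) (hlam : 0 ≤ lam) {M : ℕ} (hM : 0 < M) {x : At → X}
    {φ : At → X →L[ℝ] ℝ}
    (h2 : ∀ r (D : Finset At), |φ r (∑ i ∈ D, x i) - if r ∈ D then 1 else 0| ≤ 1 / (M : ℝ))
    (h3 : ∀ (S : Finset At) (a : At → ℝ), (∀ i, |a i| ≤ 1) → ‖∑ i ∈ S, a i • x i‖ ≤ C)
    (G : X →L[ℝ] C(K, ℝ))
    (lo : ∀ y (t : Finset At), wt t ≤ M → |∑ r ∈ t, (r.1 : ℝ) * φ r y| ≤ ‖G y‖)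
    (hi : ∀ y b, ‖y‖ ≤ b → (∀ t : Finset At, wt t ≤ M → |∑ r ∈ t, (r.1 : ℝ) * φ r y| ≤ b) →
      ‖G y‖ ≤ lam * b) : (M : ℝ) ≤ lam * (C + 2) + 2 := by
  have hM' : (0 : ℝ) < M := by exact_mod_cast hM
  have hw : ∀ r : At, (0 : ℝ) ≤ r.1 := fun r => NNRat.cast_nonneg _
  have hs : ∀ k, Summable fun r => |G (x r) k| := fun k => by
    refine summable_of_sum_le (c := ‖G‖ * C) (fun _ => abs_nonneg _) fun S => ?_
    have e : ∑ r ∈ S, |G (x r) k| = G (∑ r ∈ S, (SignType.sign (G (x r) k) : ℝ) • x r) k := by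
      rw [ev_sum]
      exact sum_congr rfl fun r _ => (sign_mul_self _).symm
    rw [e]
    refine (le_abs_self _).trans (((G _).norm_coe_le_norm k).trans ((G.le_opNorm _).trans ?_))
    refine mul_le_mul_of_nonneg_left (h3 _ _ fun r => ?_) (norm_nonneg _)
    rcases SignType.trichotomy (SignType.sign (G (x r) k)) with h | h | h <;> simp [h]
  obtain ⟨t, -, t1, t2⟩ := PP_univ hK (f := fun r k => G (x r) k)
    (fun r => (G (x r)).continuous) hs ∅ M 1 one_pos
  have t1' : wt t = M := by rw [t1]; push_cast; rfl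
  have est : ∀ D u : Finset At, wt u ≤ M →
      |∑ r ∈ u, (r.1 : ℝ) * φ r (∑ i ∈ D, x i) - wt (u ∩ D)| ≤ 1 := fun D u hu => by
    have e : wt (u ∩ D) = ∑ r ∈ u, (r.1 : ℝ) * if r ∈ D then 1 else 0 := by
      simp only [mul_ite, mul_one, mul_zero, sum_ite_mem, wt]
    rw [e, ← sum_sub_distrib]
    refine (abs_sum_le_sum_abs _ _).trans ?_
    refine (sum_le_sum (g := fun r : At => (r.1 : ℝ) * (1 / M)) fun r _ => ?_).trans ?_
    · rw [← mul_sub, abs_mul, abs_of_nonneg (hw r)]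
      exact mul_le_mul_of_nonneg_left (h2 r D) (hw r)
    · rw [← sum_mul, mul_one_div, div_le_one hM']
      exact hu
  have low : (M : ℝ) - 1 ≤ ‖G (∑ i ∈ t, x i)‖ := by
    have h4 := est t t t1'.le
    rw [inter_self, t1'] at h4
    have h5 := lo (∑ i ∈ t, x i) t t1'.le
    have := abs_le.1 h4
    have := abs_le.1 h5
    linarith
  have up : ‖G (∑ i ∈ t, x i)‖ ≤ lam * (C + 2) + 1 := by
    refine (ContinuousMap.norm_le _ (by positivity)).2 fun k => ?_
    set D := t.filter fun r => (r.1 : ℝ) ≤ |G (x r) k| with hD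
    have hcap := t2 k trivial
    unfold cap at hcap
    rw [← sum_filter_add_sum_filter_not t fun r => (r.1 : ℝ) ≤ |G (x r) k|,
      sum_congr rfl (fun r hr => min_eq_right (mem_filter.1 hr).2),
      sum_congr (s₁ := t.filter fun r => ¬ (r.1 : ℝ) ≤ |G (x r) k|) rfl
        (fun r hr => min_eq_left (not_le.1 (mem_filter.1 hr).2).le)] at hcap
    have n1 : 0 ≤ ∑ r ∈ t.filter fun r => (r.1 : ℝ) ≤ |G (x r) k|, (r.1 : ℝ) :=
      sum_nonneg fun r _ => hw r
    have n2 : 0 ≤ ∑ r ∈ t.filter fun r => ¬ (r.1 : ℝ) ≤ |G (x r) k|, |G (x r) k| :=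
      sum_nonneg fun r _ => abs_nonneg _
    have hGD : ‖G (∑ i ∈ D, x i)‖ ≤ lam * (C + 2) := by
      refine hi _ _ ?_ fun u hu => ?_
      · have := h3 D (fun _ => 1) (by simp)
        simp only [one_smul] at this
        linarith
      · have h4 := abs_le.1 (est D u hu)
        have h5 : wt (u ∩ D) ≤ wt D :=
          sum_le_sum_of_subset_of_nonneg inter_subset_right fun r _ _ => hw r
        have h6 : 0 ≤ wt (u ∩ D) := sum_nonneg fun r _ => hw r
        have h7 : wt D ≤ 1 := by unfold wt; linarith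
        rw [abs_le]
        constructor <;> linarith
    rw [← sum_filter_add_sum_filter_not t fun r => (r.1 : ℝ) ≤ |G (x r) k|, map_add,
      ContinuousMap.add_apply]
    refine (norm_add_le _ _).trans (add_le_add (((G _).norm_coe_le_norm k).trans hGD) ?_)
    rw [map_sum, ContinuousMap.sum_apply]
    refine (abs_sum_le_sum_abs _ _).trans ?_
    linarith
  linarith

/-- For every bound there is an isomorph of `X` without an embedding of that distortion in
`C(K)`. -/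
theorem no_embed {X : Type u} [NormedAddCommGroup X] [NormedSpace ℝ X] [CompleteSpace X]
    (h : Czero X) (lam : ℝ) (hlam : 0 ≤ lam) :
    ∃ (Y : Type u) (_ : NormedAddCommGroup Y) (_ : NormedSpace ℝ Y) (_ : CompleteSpace Y)
      (_ : Y ≃L[ℝ] X), ∀ {K : Type*} [TopologicalSpace K] [CompactSpace K] [T2Space K],
      (∀ L : Set K, IsClosed L → L.Nonempty → ∃ x ∈ L, ∃ U : Set K, IsOpen U ∧ U ∩ L = {x}) →
      ∀ T : Y →L[ℝ] C(K, ℝ), (∀ y, ‖y‖ ≤ ‖T y‖) → lam < ‖T‖ := by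
  obtain ⟨C, hC, h⟩ := sys h
  obtain ⟨M, hM⟩ := exists_nat_gt (lam * (C + 2) + 2)
  have hM' : (0 : ℝ) < M := lt_of_le_of_lt (by positivity) hM
  obtain ⟨x, φ, h1, h2, h3⟩ := h (1 / M) (by positivity)
  let I := {t : Finset At // wt t ≤ M}
  let _ : TopologicalSpace I := ⊥
  have : DiscreteTopology I := ⟨rfl⟩
  have hb : ∀ (y : X) (t : I), ‖∑ r ∈ t.1, (r.1 : ℝ) * φ r y‖ ≤ M * C * ‖y‖ := fun y t => by
    refine (norm_sum_le _ _).trans ?_
    refine (sum_le_sum (g := fun r : At => (r.1 : ℝ) * (C * ‖y‖)) fun r _ => ?_).trans ?_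
    · rw [norm_mul, Real.norm_of_nonneg (NNRat.cast_nonneg _)]
      exact mul_le_mul_of_nonneg_left (((φ r).le_opNorm y).trans
        (mul_le_mul_of_nonneg_right (h1 r) (norm_nonneg _))) (NNRat.cast_nonneg _)
    · rw [← sum_mul, mul_assoc]
      exact mul_le_mul_of_nonneg_right t.2 (by positivity)
  let S0 : X →ₗ[ℝ] (I →ᵇ ℝ) :=
    { toFun := fun y => BoundedContinuousFunction.ofNormedAddCommGroupDiscrete
        (fun t : I => ∑ r ∈ t.1, (r.1 : ℝ) * φ r y) (M * C * ‖y‖) (hb y)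
      map_add' := fun y z => by
        ext t
        simp [mul_add, sum_add_distrib]
      map_smul' := fun c y => by
        ext t
        simp [mul_sum, mul_left_comm] }
  have hS0 : ∀ y t, S0 y t = ∑ r ∈ t.1, (r.1 : ℝ) * φ r y := fun _ _ => rfl
  let S : X →L[ℝ] (I →ᵇ ℝ) := S0.mkContinuous (M * C) fun y =>
    (BoundedContinuousFunction.norm_le (by positivity)).2 fun t => hb y t
  have hS : ∀ y t, S y t = ∑ r ∈ t.1, (r.1 : ℝ) * φ r y := fun _ _ => rfl
  let Y : Submodule ℝ (X × (I →ᵇ ℝ)) := (S : X →ₗ[ℝ] (I →ᵇ ℝ)).graph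
  have hY : IsClosed (Y : Set (X × (I →ᵇ ℝ))) :=
    isClosed_eq continuous_snd (S.continuous.comp continuous_fst)
  let P : X →L[ℝ] Y := ((ContinuousLinearMap.id ℝ X).prod S).codRestrict Y fun _ => rfl
  have hP : ∀ y, ‖P y‖ = max ‖y‖ ‖S y‖ := fun _ => rfl
  let E : Y ≃L[ℝ] X := ContinuousLinearEquiv.equivOfInverse
    ((ContinuousLinearMap.fst ℝ X (I →ᵇ ℝ)).comp Y.subtypeL) P
    (fun y => Subtype.ext (Prod.ext rfl y.2.symm)) (fun _ => rfl)
  refine ⟨Y, inferInstance, inferInstance, hY.completeSpace_coe, E, fun hK T hT => ?_⟩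
  by_contra hc
  refine absurd (core hK hC hlam (by exact_mod_cast hM') h2 h3 (T.comp P) (fun y t ht => ?_)
    fun y b hy hb => ?_) (not_le.2 hM)
  · refine le_trans ?_ (hT (P y))
    rw [hP]
    exact ((S y).norm_coe_le_norm ⟨t, ht⟩).trans (le_max_right _ _)
  · have hb0 : 0 ≤ b := (norm_nonneg _).trans hy
    refine (T.le_opNorm (P y)).trans (mul_le_mul (not_lt.1 hc) ?_ (norm_nonneg (P y)) hlam)
    rw [hP]
    exact max_le hy ((BoundedContinuousFunction.norm_le hb0).2 fun t => hb t.1 t.2)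

end Pool.Agent.P.MP_d900b7_an.E
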