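import Pool.Agent.P.MP_d900b7_an.E.Defs
import Pool.Agent.P.MP_d900b7_an.E.Renorm

/-! The three conditions are equivalent. -/

namespace Pool.Agent.P.MP_d900b7_an.E

open scoped ENNReal

universe u v

theorem fin_dist {Y Z : Type u} [NormedAddCommGroup Y] [NormedSpace ℝ Y] [NormedAddCommGroup Z]
    [NormedSpace ℝ Z] [FiniteDimensional ℝ Z] (e : Y ≃L[ℝ] Z) {n : ℕ}
    (hn : Module.finrank ℝ Z ≤ n) : bmDist Y Z ≤ ENNReal.ofReal ((n * 2 ^ n) * (n * 2 ^ n)) := by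
  have : FiniteDimensional ℝ Y := Module.Finite.equiv e.symm.toLinearEquiv
  obtain ⟨A, a1, a2⟩ := fin_iso (X := Y) e.toLinearEquiv.finrank_eq
  obtain ⟨B, b1, b2⟩ := fin_iso (X := Z) rfl
  have h1 : ((Module.finrank ℝ Z : ℕ) : ℝ) ≤ n := by exact_mod_cast hn
  have h2 : (2 : ℝ) ^ Module.finrank ℝ Z ≤ 2 ^ n := pow_le_pow_right₀ (by norm_num) hn
  refine (iInf_le _ (A.symm.trans B)).trans ?_
  rw [← ofReal_norm, ← ofReal_norm, ← ENNReal.ofReal_mul (norm_nonneg _)]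
  refine ENNReal.ofReal_le_ofReal (mul_le_mul ?_ ?_ (norm_nonneg _) (by positivity))
  · refine ContinuousLinearMap.opNorm_le_bound _ (by positivity) fun y => ?_
    rw [mul_assoc]
    exact (B : (Fin (Module.finrank ℝ Z) → ℝ) →L[ℝ] Z).le_of_opNorm_le_of_le (x := A.symm y)
      (b1.trans h1) (ContinuousLinearMap.le_of_opNorm_le _ (a2.trans h2) y)
  · refine ContinuousLinearMap.opNorm_le_bound _ (by positivity) fun y => ?_
    rw [mul_assoc]
    exact (A : (Fin (Module.finrank ℝ Z) → ℝ) →L[ℝ] Y).le_of_opNorm_le_of_le (x := B.symm y)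
      (a1.trans h1) (ContinuousLinearMap.le_of_opNorm_le _ (b2.trans h2) y)

theorem le_diam {X Y Z : Type u} [NormedAddCommGroup X] [NormedSpace ℝ X]
    [NormedAddCommGroup Y] [NormedSpace ℝ Y] [CompleteSpace Y] [NormedAddCommGroup Z]
    [NormedSpace ℝ Z] [CompleteSpace Z] (e : Y ≃L[ℝ] X) (f : Z ≃L[ℝ] X) :
    bmDist Y Z ≤ bmDiam X := by
  unfold bmDiam
  exact le_iSup_of_le Y (le_iSup_of_le inferInstance (le_iSup_of_le inferInstance
    (le_iSup_of_le inferInstance (le_iSup_of_le ⟨e⟩ (le_iSup_of_le Z (le_iSup_of_le inferInstance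
    (le_iSup_of_le inferInstance (le_iSup_of_le inferInstance (le_iSup_of_le ⟨f⟩ le_rfl)))))))))

theorem bound_lin {A B : Type*} [NormedAddCommGroup A] [NormedSpace ℝ A] [NormedAddCommGroup B]
    [NormedSpace ℝ B] (f : A →ₗ[ℝ] B) (hf : Continuous f) :
    ∃ d : ℝ, 0 < d ∧ ∀ y, ‖f y‖ ≤ d * ‖y‖ :=
  SemilinearMapClass.bound_of_continuous f hf

theorem fin_of_bdd {K : Type v} [TopologicalSpace K] [CompactSpace K] [T2Space K]
    (hK : IsScattered K) {X : Type u} [NormedAddCommGroup X] [NormedSpace ℝ X] [CompleteSpace X]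
    (hX : ∃ S : Submodule ℝ C(K, ℝ), Nonempty (X ≃L[ℝ] S)) {c : ℝ≥0∞} (hc : c < ⊤)
    (h : ∀ (Y : Type u) [NormedAddCommGroup Y] [NormedSpace ℝ Y] [CompleteSpace Y],
      (Y ≃L[ℝ] X) → ∃ S : Submodule ℝ X, bmDist Y S ≤ c) : FiniteDimensional ℝ X := by
  by_contra hf
  obtain ⟨S, ⟨e⟩⟩ := hX
  let J : X →L[ℝ] C(K, ℝ) := S.subtypeL.comp (e : X →L[ℝ] S)
  obtain ⟨d, hd0, hd⟩ := bound_lin (A := S) (B := X) e.symm.toLinearEquiv.toLinearMap
    e.symm.continuous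
  have hJ : ∀ x, ‖x‖ ≤ d * ‖J x‖ := fun x =>
    (congrArg norm (e.symm_apply_apply x)).symm.trans_le (hd (e x))
  obtain ⟨Y, _, _, _, E, hY⟩ := no_embed.{u, v} (czero hK J hd0 hJ hf)
    (d * ‖J‖ * (c.toReal + 1)) (by positivity)
  obtain ⟨S', hS'⟩ := h Y E
  have hlt : bmDist Y S' < ENNReal.ofReal (c.toReal + 1) := by
    refine hS'.trans_lt ?_
    rw [ENNReal.lt_ofReal_iff_toReal_lt hc.ne]
    linarith
  obtain ⟨U, hU⟩ := iInf_lt_iff.1 hlt
  rw [← ofReal_norm, ← ofReal_norm, ← ENNReal.ofReal_mul (norm_nonneg _),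
    ENNReal.ofReal_lt_ofReal_iff (by positivity)] at hU
  set a := ‖(U : Y →L[ℝ] S')‖ with ha
  set b := ‖(U.symm : S' →L[ℝ] Y)‖ with hb
  have ha0 : 0 ≤ a := norm_nonneg _
  have hb0 : 0 ≤ b := norm_nonneg _
  let T : Y →L[ℝ] C(K, ℝ) := (b * d) • J.comp (S'.subtypeL.comp (U : Y →L[ℝ] S'))
  have hT : ∀ y, ‖T y‖ = b * d * ‖J (U y)‖ := fun y => by
    change ‖(b * d) • J (U y)‖ = _
    rw [norm_smul, Real.norm_of_nonneg (by positivity)]
  refine absurd (hY hK T fun y => ?_) (not_lt.2 ?_)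
  · have := (U.symm : S' →L[ℝ] Y).le_opNorm (U y)
    rw [ContinuousLinearEquiv.coe_coe, U.symm_apply_apply] at this
    rw [hT, mul_assoc]
    exact this.trans (mul_le_mul_of_nonneg_left (hJ (U y)) hb0)
  · refine ContinuousLinearMap.opNorm_le_bound _ (by positivity) fun y => ?_
    have h1 : ‖J (U y)‖ ≤ ‖J‖ * (a * ‖y‖) := (J.le_opNorm _).trans
      (mul_le_mul_of_nonneg_left ((U : Y →L[ℝ] S').le_opNorm y) (norm_nonneg _))
    rw [hT]
    refine (mul_le_mul_of_nonneg_left h1 (by positivity)).trans ?_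
    rw [show b * d * (‖J‖ * (a * ‖y‖)) = d * ‖J‖ * (a * b) * ‖y‖ by ring]
    gcongr

theorem tfae {K : Type v} [TopologicalSpace K] [CompactSpace K] [T2Space K]
    (hK : IsScattered K) {X : Type u} [NormedAddCommGroup X] [NormedSpace ℝ X] [CompleteSpace X]
    (hX : ∃ S : Submodule ℝ C(K, ℝ), Nonempty (X ≃L[ℝ] S)) :
    List.TFAE [FiniteDimensional ℝ X, bmDiam X < ⊤, IsElastic X] := by
  let tp : (⊤ : Submodule ℝ X) ≃L[ℝ] X := ContinuousLinearEquiv.equivOfInverse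
    (⊤ : Submodule ℝ X).subtypeL ((ContinuousLinearMap.id ℝ X).codRestrict ⊤ fun _ => trivial)
    (fun _ => rfl) (fun _ => rfl)
  tfae_have 1 → 2 := fun h => by
    refine lt_of_le_of_lt ?_ (ENNReal.ofReal_lt_top (r :=
      (Module.finrank ℝ X * 2 ^ Module.finrank ℝ X) *
        (Module.finrank ℝ X * 2 ^ Module.finrank ℝ X)))
    unfold bmDiam
    simp only [iSup_le_iff]
    rintro Y _ _ _ ⟨e⟩ Z _ _ _ ⟨f⟩
    have : FiniteDimensional ℝ Z := Module.Finite.equiv f.symm.toLinearEquiv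
    exact fin_dist (e.trans f.symm) f.toLinearEquiv.finrank_eq.le
  tfae_have 1 → 3 := fun h => ⟨_, ENNReal.ofReal_lt_top, fun Y _ _ _ ⟨S, ⟨e⟩⟩ =>
    ⟨S, ⟨e⟩, fin_dist e S.finrank_le⟩⟩
  tfae_have 2 → 1 := fun h => fin_of_bdd hK hX h fun Y _ _ _ e =>
    have : CompleteSpace (⊤ : Submodule ℝ X) := isClosed_univ.completeSpace_coe
    ⟨⊤, le_diam e tp⟩
  tfae_have 3 → 1 := fun ⟨c, hc, h⟩ => fin_of_bdd hK hX hc fun Y _ _ _ e => by
    obtain ⟨S, -, hS⟩ := h Y ⟨⊤, ⟨e.trans tp.symm⟩⟩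
    exact ⟨S, hS⟩
  tfae_finish

end Pool.Agent.P.MP_d900b7_an.E
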