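import Mathlib

/-! Induction over scattered compact spaces and the selection of a spread out set of atoms. -/

namespace Pool.Agent.P.MP_d900b7_an.E

open Set Topology Filter
open scoped NNRat

theorem scat_ind {K : Type*} [TopologicalSpace K] [CompactSpace K] [T2Space K]
    (hK : ∀ L : Set K, IsClosed L → L.Nonempty → ∃ x ∈ L, ∃ U : Set K, IsOpen U ∧ U ∩ L = {x})
    (Q : Set K → Prop) (h0 : Q ∅) (hm : ∀ A B, A ⊆ B → Q B → Q A)
    (hu : ∀ A B, Q A → Q B → Q (A ∪ B))
    (hp : ∀ A p, IsCompact A → (∀ B, IsCompact B → B ⊆ A → p ∉ B → Q B) → Q A) :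
    Q univ := by
  set U : Set K := {k | ∃ V ∈ 𝓝 k, Q V} with hUd
  have hc : ∀ B, IsCompact B → B ⊆ U → Q B := fun B hB hBU =>
    hB.induction_on h0 (fun s t hst ht => hm s t hst ht) (fun s t hs ht => hu s t hs ht)
      (fun x hx => by
        obtain ⟨V, hV, hQ⟩ := hBU hx
        exact ⟨V, mem_nhdsWithin_of_mem_nhds hV, hQ⟩)
  have hU : IsOpen U := by
    rw [isOpen_iff_mem_nhds]
    rintro k ⟨V, hV, hQ⟩
    filter_upwards [eventually_mem_nhds_iff.2 hV] with y hy using ⟨V, hy, hQ⟩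
  refine hc _ isCompact_univ fun k _ => ?_
  by_contra hk
  obtain ⟨x, hx, W, hW, hWx⟩ := hK Uᶜ hU.isClosed_compl ⟨k, hk⟩
  have hxW : x ∈ W := (hWx.symm ▸ mem_singleton x : x ∈ W ∩ Uᶜ).1
  obtain ⟨A, hA, hAW, hAc⟩ := local_compact_nhds (hW.mem_nhds hxW)
  refine hx ⟨A, hA, hp A x hAc fun B hB hBA hxB => hc B hB fun y hy => ?_⟩
  by_contra hyU
  have : y ∈ W ∩ Uᶜ := ⟨hAW (hBA hy), hyU⟩
  rw [hWx, mem_singleton_iff] at this
  exact hxB (this ▸ hy)

/-- Atoms: a rational weight and a label. -/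
abbrev At : Type := ℚ≥0 × ℕ

/-- Total weight. -/
def wt (t : Finset At) : ℝ := ∑ r ∈ t, (r.1 : ℝ)

/-- The weight captured by a point. -/
def cap {K : Type*} (f : At → K → ℝ) (k : K) (t : Finset At) : ℝ :=
  ∑ r ∈ t, min |f r k| (r.1 : ℝ)

theorem cap_le_wt {K : Type*} (f : At → K → ℝ) (k : K) (t : Finset At) : cap f k t ≤ wt t :=
  Finset.sum_le_sum fun _ _ => min_le_right _ _

def PP {K : Type*} (f : At → K → ℝ) (A : Set K) : Prop :=
  ∀ (s : Finset At) (μ : ℚ≥0) (δ : ℝ), 0 < δ →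
    ∃ t : Finset At, Disjoint s t ∧ wt t = μ ∧ ∀ k ∈ A, cap f k t ≤ δ

theorem PP.mono {K : Type*} {f : At → K → ℝ} {A B : Set K} (h : A ⊆ B) (hB : PP f B) : PP f A :=
  fun s μ δ hδ => by
    obtain ⟨t, h1, h2, h3⟩ := hB s μ δ hδ
    exact ⟨t, h1, h2, fun k hk => h3 k (h hk)⟩

theorem PP_empty {K : Type*} (f : At → K → ℝ) : PP f ∅ := fun s μ δ _ => by
  obtain ⟨n, hn⟩ := Infinite.exists_notMem_finset (s.image Prod.snd)
  refine ⟨{(μ, n)}, ?_, by simp [wt], by simp⟩
  rw [Finset.disjoint_singleton_right]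
  exact fun h => hn (Finset.mem_image_of_mem Prod.snd h)

theorem PP.point {K : Type*} {f : At → K → ℝ} {B : Set K} (hB : PP f B) {p : K}
    (hs : Summable fun r => |f r p|) : PP f (insert p B) := fun s μ δ hδ => by
  obtain ⟨F, hF⟩ := summable_iff_vanishing_norm.1 hs δ hδ
  obtain ⟨t, h1, h2, h3⟩ := hB (s ∪ F) μ δ hδ
  rw [Finset.disjoint_union_left] at h1
  refine ⟨t, h1.1, h2, ?_⟩
  rintro k (rfl | hk)
  · refine le_trans (Finset.sum_le_sum fun _ _ => min_le_left _ _) ?_
    exact (le_abs_self _).trans (hF t h1.2.symm).le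
  · exact h3 k hk

theorem PP_step {K : Type*} [TopologicalSpace K] {f : At → K → ℝ} (hf : ∀ r, Continuous (f r))
    {A B : Set K} {p : K} (hA : IsCompact A) (hpB : p ∈ B)
    (h : ∀ A', IsCompact A' → A' ⊆ A → p ∉ A' → PP f (A' ∪ B)) : PP f (A ∪ B) := by
  intro s μ δ hδ
  obtain ⟨N, hN⟩ := exists_nat_gt ((μ : ℝ) / (δ / 3))
  have hδ3 : 0 < δ / 3 := by positivity
  have hN0 : (0 : ℝ) < N := lt_of_le_of_lt (by positivity) hN
  have hμ : (μ : ℝ) / N ≤ δ / 3 := by
    rw [div_le_iff₀ hN0]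
    rw [div_lt_iff₀ hδ3] at hN
    linarith
  have key : ∀ j : ℕ, ∃ t : Finset At, Disjoint s t ∧ wt t = j * ((μ : ℝ) / N) ∧
      (∀ k ∈ B, cap f k t ≤ j * (δ / 3 / N)) ∧
      ∀ k ∈ A, cap f k t ≤ j * (δ / 3 / N) + 2 * (δ / 3) := by
    intro j
    induction j with
    | zero => exact ⟨∅, by simp, by simp [wt], by simp [cap], fun k _ => by simp [cap, hδ3.le]⟩
    | succ j ih =>
      obtain ⟨t, h1, h2, h3, h4⟩ := ih
      have hc : Continuous fun k => cap f k t :=
        continuous_finsetSum _ fun r _ => ((hf r).abs).min continuous_const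
      set A' : Set K := A ∩ {k | j * (δ / 3 / N) + δ / 3 ≤ cap f k t} with hA'
      have hp : p ∉ A' := fun hp => by
        have h5 : j * (δ / 3 / N) + δ / 3 ≤ cap f p t := hp.2
        have := h3 p hpB
        linarith
      obtain ⟨u, g1, g2, g3⟩ := h A' (hA.inter_right (isClosed_le continuous_const hc))
        inter_subset_left hp (s ∪ t) (μ / N) (δ / 3 / N) (by positivity)
      rw [Finset.disjoint_union_left] at g1
      have g4 : wt u = (μ : ℝ) / N := by rw [g2]; push_cast; rfl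
      have e1 : ∀ k, cap f k (t ∪ u) = cap f k t + cap f k u := fun k => Finset.sum_union g1.2
      have e2 : wt (t ∪ u) = wt t + wt u := Finset.sum_union g1.2
      refine ⟨t ∪ u, Finset.disjoint_union_right.2 ⟨h1, g1.1⟩, ?_, fun k hk => ?_, fun k hk => ?_⟩
      · rw [e2, h2, g4]; push_cast; ring
      · have := h3 k hk
        have := g3 k (Or.inr hk)
        rw [e1]; push_cast; linarith
      · rw [e1]
        push_cast
        by_cases hk' : k ∈ A'
        · have := h4 k hk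
          have := g3 k (Or.inl hk')
          linarith
        · have h5 : cap f k t < j * (δ / 3 / N) + δ / 3 := not_le.1 fun h5 => hk' ⟨hk, h5⟩
          have h6 := cap_le_wt f k u
          have h7 : 0 < δ / 3 / N := by positivity
          linarith
  obtain ⟨t, h1, h2, h3, h4⟩ := key N
  have e : (N : ℝ) * (δ / 3 / N) = δ / 3 := by field_simp
  refine ⟨t, h1, by rw [h2]; field_simp, ?_⟩
  rintro k (hk | hk)
  · have := h4 k hk
    linarith
  · have := h3 k hk
    linarith

theorem PP_univ {K : Type*} [TopologicalSpace K] [CompactSpace K] [T2Space K]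
    (hK : ∀ L : Set K, IsClosed L → L.Nonempty → ∃ x ∈ L, ∃ U : Set K, IsOpen U ∧ U ∩ L = {x})
    {f : At → K → ℝ} (hf : ∀ r, Continuous (f r)) (hs : ∀ k, Summable fun r => |f r k|) :
    PP f univ := by
  have := scat_ind hK (fun A => ∀ B, PP f B → PP f (A ∪ B)) (fun B hB => by rwa [empty_union])
    (fun A A' h h' B hB => (h' B hB).mono (union_subset_union_left _ h))
    (fun A A' h h' B hB => by rw [union_assoc]; exact h _ (h' B hB))
    (fun A p hA h B hB => (PP_step hf hA (mem_insert p B)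
      fun A' h1 h2 h3 => h A' h1 h2 h3 _ (hB.point (hs p))).mono
        (union_subset_union_right _ (subset_insert p B))) ∅ (PP_empty f)
  rwa [union_empty] at this

end Pool.Agent.P.MP_d900b7_an.E
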